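import Pool.Agent.Helper60.FF.StmtsC

/-!
# Module FINQ
-/

set_option autoImplicit false

namespace Pool.Agent.Helper60.FF

open Polynomial

theorem finq_lift {p : ℕ} [Fact p.Prime] {f : ℕ} {χ : Polynomial (RF p)}
    (h : ∀ j, χ.coeff j ∈ Fq p f) : ∃ χ' : Polynomial (Fq p f), χ'.map (Fq p f).subtype = χ := by
  rw [← Polynomial.mem_lifts, Polynomial.lifts_iff_coeff_lifts]
  intro j
  exact ⟨⟨χ.coeff j, h j⟩, rfl⟩

theorem finq_pt {p : ℕ} [Fact p.Prime] {f : ℕ} (w : Fq p f) (b : Bool) (i : ℕ) :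
    (Fq p f).subtype (pt w b i) = pt ((Fq p f).subtype w) b i := by
  unfold pt
  rw [map_add, map_natCast]
  congr 1
  split_ifs
  · rfl
  · exact map_zero _

theorem finq_eval {p : ℕ} [Fact p.Prime] {f : ℕ} (P : Polynomial (Fq p f)) (w : Fq p f) :
    (P.map (Fq p f).subtype).eval ((Fq p f).subtype w) = (Fq p f).subtype (P.eval w) := by
  rw [Polynomial.eval_map, Polynomial.eval₂_at_apply]

theorem finq_sy {p : ℕ} [Fact p.Prime] {f n : ℕ} (w z : Fq p f) (A : Bool → ℕ → Fq p f)
    (A' : Bool → ℕ → RF p) (hA : ∀ b i, i ≤ 2 * n → (Fq p f).subtype (A b i) = A' b i)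
    (χ ψ : Polynomial (Fq p f)) :
    Sy n w z A χ ψ ↔ Sy n ((Fq p f).subtype w) ((Fq p f).subtype z) A' (χ.map (Fq p f).subtype)
      (ψ.map (Fq p f).subtype) := by
  have hinj : Function.Injective (Fq p f).subtype := (Fq p f).subtype.injective
  unfold Sy
  rw [Polynomial.natDegree_map_eq_of_injective hinj, Polynomial.natDegree_map_eq_of_injective hinj]
  refine and_congr Iff.rfl (and_congr Iff.rfl ?_)
  refine forall_congr' fun b => forall_congr' fun i => ?_
  refine forall_congr' fun hi => ?_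
  rw [← hinj.eq_iff, map_add, map_mul, ← finq_eval, ← finq_eval χ, finq_pt, hA b i hi,
    Polynomial.derivative_map]
  have h1 : (Fq p f).subtype (if b = true then z * (derivative χ).eval (pt w b i) else 0) =
      if b = true then (Fq p f).subtype z *
        ((derivative χ).map (Fq p f).subtype).eval (pt ((Fq p f).subtype w) b i) else 0 := by
    split_ifs
    · rw [map_mul, ← finq_eval, finq_pt]
    · exact map_zero _
  rw [h1]

theorem st_FINQ (hFINF : ST_FINF) (hRFA : ST_RFA) : ST_FINQ := by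
  intro p n f _ hPP hf w α ω c S hw hαω hc hex hS
  classical
  obtain ⟨hfin, hcard⟩ := (hRFA p).2.2.1 f hf
  have := Fintype.ofFinite (Fq p f)
  have hcard' : Fintype.card (Fq p f) = p ^ f := by
    rw [← Nat.card_eq_fintype_card]
    exact hcard
  have hinj : Function.Injective (Fq p f).subtype := (Fq p f).subtype.injective
  have hchar : CharP (Fq p f) p := RingHom.charP (Fq p f).subtype hinj p
  have hdvd : 4 * n + 2 ∣ Fintype.card (Fq p f) - 1 := by
    rw [hcard']
    have h1 : p - 1 ∣ p ^ f - 1 ^ f := Nat.sub_dvd_pow_sub_pow p 1 f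
    rw [one_pow] at h1
    exact hPP.one.trans h1
  have hbig := hPP.big
  have hle : p ≤ p ^ f := Nat.le_self_pow hf.ne' p
  have h12 : 12 * n + 6 ≤ Fintype.card (Fq p f) := by
    rw [hcard']
    nlinarith
  have h2n : 2 * n < p := by nlinarith
  obtain ⟨χ₀, ψ₁, Z, h0, hsy, hZ, hz⟩ := hFINF (Fq p f) p n hPP.prime hchar hPP.npos h2n hdvd h12
    ⟨w, hw⟩ (fun b i => if h : i ≤ 2 * n then ⟨α b i, (hαω b i h).1⟩ else 0)
    (fun b i => if h : i ≤ 2 * n then ⟨ω b i, (hαω b i h).2⟩ else 0)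
    (fun i j => ⟨c i j, hc i j⟩)
    (fun z χ ψ => S z (χ.map (Fq p f).subtype) (ψ.map (Fq p f).subtype))
    (by
      intro z
      obtain ⟨χ, ψ, h⟩ := hex z z.2
      obtain ⟨_, h2, h3, _⟩ := hS z z.2 χ ψ h
      obtain ⟨χ', rfl⟩ := finq_lift h2
      obtain ⟨ψ', rfl⟩ := finq_lift h3
      exact ⟨χ', ψ', h⟩)
    (by
      intro z χ ψ h
      obtain ⟨h1, _, _, h4, h5⟩ := hS z z.2 _ _ h
      refine ⟨?_, ?_, ?_⟩
      · intro h0
        apply h1
        rw [h0, Polynomial.map_zero]
      · rw [finq_sy ⟨w, hw⟩ z _ (fun b i => α b i + z * ω b i)]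
        · exact h4
        · intro b i hi
          beta_reduce
          rw [dif_pos hi, dif_pos hi, map_add, map_mul]
          rfl
      · intro i j hi hj hχi hχj
        have e1 : ∀ i : ℕ, (χ.map (Fq p f).subtype).eval (i : RF p) =
            (Fq p f).subtype (χ.eval (i : Fq p f)) := by
          intro i
          rw [← finq_eval, map_natCast]
        have hn : ∀ i : ℕ, χ.eval (i : Fq p f) ≠ 0 →
            (χ.map (Fq p f).subtype).eval (i : RF p) ≠ 0 := by
          intro i hi
          rw [e1, _root_.map_ne_zero]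
          exact hi
        obtain ⟨s, hs, hs0, hs1⟩ := h5 i j hi hj (hn i hχi) (hn j hχj)
        refine ⟨⟨s, hs⟩, ?_, ?_⟩
        · intro h
          apply hs0
          exact congrArg Subtype.val h
        · apply hinj
          rw [e1, e1] at hs1
          rw [map_mul, map_mul, map_pow]
          exact hs1)
  refine ⟨χ₀.map (Fq p f).subtype, ψ₁.map (Fq p f).subtype, Z.image (Fq p f).subtype, ?_, ?_, ?_, ?_⟩
  · intro h
    apply h0
    exact (Polynomial.map_eq_zero_iff hinj).1 h
  · rw [finq_sy ⟨w, hw⟩ 1 _ ω] at hsy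
    · rw [map_one] at hsy
      exact hsy
    · intro b i hi
      beta_reduce
      rw [dif_pos hi]
      rfl
  · exact Finset.card_image_le.trans hZ
  · intro z hzq hzZ χ ψ h
    obtain ⟨_, h2, h3, _⟩ := hS z hzq χ ψ h
    obtain ⟨χ', rfl⟩ := finq_lift h2
    obtain ⟨ψ', rfl⟩ := finq_lift h3
    obtain ⟨s, hs, hs'⟩ := hz ⟨z, hzq⟩ (by
      intro h
      apply hzZ
      exact Finset.mem_image.2 ⟨_, h, rfl⟩) χ' ψ' h
    refine ⟨(Fq p f).subtype s, ?_, ?_⟩
    · rw [_root_.map_ne_zero]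
      exact hs
    · rw [hs', Polynomial.map_mul, Polynomial.map_C]

end Pool.Agent.Helper60.FF
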