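import Pool.Agent.Helper60.FF.LibC

/-!
# Module L2
-/

set_option autoImplicit false

namespace Pool.Agent.Helper60.FF

open Polynomial

theorem l2_rmp {F : Type} [Field F] (G : Polynomial F) (hG : G ≠ 0) (w : F) (l : ℕ) :
    (G ^ l).rootMultiplicity w = l * G.rootMultiplicity w := by
  induction l with
  | zero =>
    rw [pow_zero, zero_mul]
    exact rootMultiplicity_eq_zero (by rw [IsRoot.def, eval_one]; exact one_ne_zero)
  | succ l ih =>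
    rw [pow_succ, rootMultiplicity_mul (mul_ne_zero (pow_ne_zero _ hG) hG), ih]
    ring

theorem st_L2 (hP1 : ST_P1) (hP3 : ST_P3) (hDIR : ST_DIR) (hL2C : ST_L2C) (hDIC : ST_DIC)
    (hLFX : ST_LFX) (hRED : ST_RED) (hORD : ST_ORD) (hRFA : ST_RFA) (hOVF : ST_OVF) : ST_L2 := by
  intro p n _ hPP K a ϖ hϖ w₀ hw₀
  obtain ⟨T, hTP, hTC⟩ := hP1 p n hPP K a ϖ hϖ
  obtain ⟨E₁, hE₁, hE₀, haE, hϖE, -⟩ := lib_ext2 K.E₀ K.fin₀ (a : ℂ_[p]) (ϖ : ℂ_[p])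
    (K.alg a a.2) (K.alg ϖ ϖ.2)
  obtain ⟨-, π₁, hπA, f₁, hLF⟩ := hLFX p K.A K.acl E₁ hE₁
  have hl : 0 < 4 * n + 2 := by omega
  have hdvd : 4 * n + 2 ∣ p ^ f₁ - 1 := by
    have h1 : p - 1 ∣ p ^ f₁ - 1 ^ f₁ := Nat.sub_dvd_pow_sub_pow p 1 f₁
    rw [one_pow] at h1
    exact hPP.one.trans h1
  have hacl : IsAlgClosed (RF p) := (hRFA p).1
  have hbig := hPP.big
  obtain ⟨o1, o2, o3, o4, o5⟩ := hORD p K.A
  have hTC' : ∃ (P : Polynomial (RF p)) (φ : Polynomial (RF p)), P ≠ 0 ∧ φ ≠ 0 ∧ φ.natDegree ≤ n ∧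
      T = C P * φ.map C := by
    refine hL2C (RF p) p n (4 * n + 2) hPP.prime inferInstance hPP.one (by omega) hPP.npos
      (by omega) T w₀ hTP.1 hTP.2.1 ?_
    intro w hw i j hi hj hTi hTj
    have hHi := K.H0 (4 * n + 2) ((i : ℕ) : RatFunc K.A) hl
    have hHj := K.H0 (4 * n + 2) ((j : ℕ) : RatFunc K.A) hl
    have hOi := K.Hdef E₁ hE₁ hE₀ (4 * n + 2) ((i : ℕ) : RatFunc K.A) hl (lib_ov_nat i)
    have hOj := K.Hdef E₁ hE₁ hE₀ (4 * n + 2) ((j : ℕ) : RatFunc K.A) hl (lib_ov_nat j)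
    have hh := div_ne_zero hHi hHj
    obtain ⟨s, P, Q, hR⟩ := hRED p K.A K.acl E₁ π₁ f₁ hLF a ϖ haE hϖE hϖ _ hh
      (lib_ov_div hOVF hOi hOj)
    obtain ⟨G₁, G₂, hG₁, hG₂, -, -, hG⟩ := hP3 p n hPP K a ϖ hϖ T hTP hTC E₁ π₁ f₁ hLF hE₀ haE hϖE
      (4 * n + 2) hl hdvd i j hTi hTj s P Q hR
    have hPQ := hDIR p K.A K.acl K.cnt E₁ (π₁ ^ s) a ϖ _ P Q hϖ hh hR w (by
      intro v hv1 hv2
      by_contra hne
      apply hw
      rw [← hv2]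
      refine hw₀ v ?_ hv1
      rw [div_eq_mul_inv, o1 v _ _ hHi (inv_ne_zero hHj), o2 v _ hHj] at hne
      by_cases h1 : ordv K.A v (K.H (4 * n + 2) ((i : ℕ) : RatFunc K.A)) = 0
      · refine Or.inr ⟨j, hj, ?_⟩
        intro h2
        apply hne
        rw [h1, h2]
        ring
      · exact Or.inr ⟨i, hi, h1⟩)
    have hm := congrArg (fun G => Polynomial.rootMultiplicity w G) hG
    beta_reduce at hm
    have e1 := mul_ne_zero hTi hR.rQ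
    have e2 := mul_ne_zero hTj hR.rP
    rw [rootMultiplicity_mul (mul_ne_zero e1 (pow_ne_zero _ hG₂)), rootMultiplicity_mul e1,
      rootMultiplicity_mul (mul_ne_zero e2 (pow_ne_zero _ hG₁)), rootMultiplicity_mul e2,
      l2_rmp _ hG₁, l2_rmp _ hG₂, hPQ] at hm
    refine ⟨(G₁.rootMultiplicity w : ℤ) - G₂.rootMultiplicity w, ?_⟩
    zify at hm
    push_cast
    linear_combination hm
  obtain ⟨P, φ, hP, -, -, hT⟩ := hTC'
  rw [hT] at hTP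
  exact ⟨φ, (hDIC p n hPP K).2.1 a ϖ P φ hP hTP⟩

end Pool.Agent.Helper60.FF
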