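import Pool.Agent.Helper60.FF.LibC

/-!
# Module L3
-/

set_option autoImplicit false

namespace Pool.Agent.Helper60.FF

open Polynomial

theorem st_L3 (hL3D : ST_L3D) (hLFX : ST_LFX) (hSGF : ST_SGF) : ST_L3 := by
  classical
  intro p n _ hPP K v ϖ₁ ϖ₂ hϖ₁ hlt hex φ₁ φ₂ hφ₁ hφ₂
  obtain ⟨E₁, hE₁, hE₀, hvE⟩ := lib_ext1 K.E₀ K.fin₀ (v : ℂ_[p]) (K.alg v v.2)
  obtain ⟨-, π₁, hπA, f₁, hLF⟩ := hLFX p K.A K.acl E₁ hE₁
  have hm : 0 < p ^ f₁ - 1 := by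
    have h1 : 1 < p ^ f₁ := Nat.one_lt_pow hLF.fpos.ne' hPP.prime.one_lt
    omega
  have hfin := (hSGF p n K).2 (p ^ f₁ - 1) hm
  have key : ∀ (k : ℕ) (ϖ ϖ' : K.A), ϖ ≠ 0 → ‖(ϖ₁ : ℂ_[p])‖ ≤ ‖(ϖ : ℂ_[p])‖ →
      ‖(ϖ : ℂ_[p])‖ < ‖(ϖ' : ℂ_[p])‖ → ‖(ϖ' : ℂ_[p])‖ ≤ ‖(ϖ₂ : ℂ_[p])‖ →
      (hfin.toFinset.filter (fun b : K.A => ‖(ϖ : ℂ_[p])‖ < ‖(b : ℂ_[p]) - v‖ ∧
        ‖(b : ℂ_[p]) - v‖ < ‖(ϖ' : ℂ_[p])‖)).card ≤ k →
      ∀ φ φ' : Polynomial (RF p), CT K v ϖ φ → CT K v ϖ' φ' → ∃ s : RF p, s ≠ 0 ∧ φ' = C s * φ := by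
    intro k
    induction k with
    | zero =>
      intro ϖ ϖ' h0 h1 h2 h3 hk φ φ' hφ hφ'
      refine hL3D p n hPP K v ϖ ϖ' h0 h2 E₁ π₁ f₁ hLF hπA hE₀ hvE ?_ φ φ' hφ hφ'
      intro b i hi hb
      by_contra hcon
      push Not at hcon
      have hmem : b ∈ hfin.toFinset.filter (fun b : K.A => ‖(ϖ : ℂ_[p])‖ < ‖(b : ℂ_[p]) - v‖ ∧
        ‖(b : ℂ_[p]) - v‖ < ‖(ϖ' : ℂ_[p])‖) := by
        rw [Finset.mem_filter, Set.Finite.mem_toFinset]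
        exact ⟨⟨i, hi, hb⟩, hcon⟩
      have := Finset.card_pos.2 ⟨b, hmem⟩
      omega
    | succ k ih =>
      intro ϖ ϖ' h0 h1 h2 h3 hk φ φ' hφ hφ'
      by_cases hcase : ∃ b ∈ hfin.toFinset, ‖(ϖ : ℂ_[p])‖ < ‖(b : ℂ_[p]) - v‖ ∧
        ‖(b : ℂ_[p]) - v‖ < ‖(ϖ' : ℂ_[p])‖
      · obtain ⟨b, hb, hb1, hb2⟩ := hcase
        have hbv : ((b - v : K.A) : ℂ_[p]) = (b : ℂ_[p]) - v := rfl
        have hbv0 : (b - v : K.A) ≠ 0 := by
          intro h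
          have h' : (b : ℂ_[p]) - v = 0 := by
            rw [← hbv, h]
            rfl
          rw [h', norm_zero] at hb1
          exact absurd hb1 (not_lt.2 (norm_nonneg _))
        obtain ⟨φ'', hφ''⟩ := hex (b - v) (by rw [hbv]; exact h1.trans hb1.le)
          (by rw [hbv]; exact hb2.le.trans h3)
        have hbm : b ∈ hfin.toFinset.filter (fun b : K.A => ‖(ϖ : ℂ_[p])‖ < ‖(b : ℂ_[p]) - v‖ ∧
            ‖(b : ℂ_[p]) - v‖ < ‖(ϖ' : ℂ_[p])‖) := Finset.mem_filter.2 ⟨hb, hb1, hb2⟩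
        obtain ⟨s, hs, hs'⟩ := ih ϖ (b - v) h0 h1 (by rw [hbv]; exact hb1)
          (by rw [hbv]; exact hb2.le.trans h3) (by
            refine Nat.le_of_lt_succ (lt_of_lt_of_le (Finset.card_lt_card ?_) hk)
            rw [Finset.ssubset_iff_of_subset]
            · refine ⟨b, hbm, ?_⟩
              rw [Finset.mem_filter, hbv]
              rintro ⟨-, -, h⟩
              exact lt_irrefl _ h
            · intro c hc
              rw [Finset.mem_filter, hbv] at hc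
              rw [Finset.mem_filter]
              exact ⟨hc.1, hc.2.1, hc.2.2.trans hb2⟩) φ φ'' hφ hφ''
        obtain ⟨s', hs1, hs1'⟩ := ih (b - v) ϖ' hbv0 (by rw [hbv]; exact h1.trans hb1.le)
          (by rw [hbv]; exact hb2) h3 (by
            refine Nat.le_of_lt_succ (lt_of_lt_of_le (Finset.card_lt_card ?_) hk)
            rw [Finset.ssubset_iff_of_subset]
            · refine ⟨b, hbm, ?_⟩
              rw [Finset.mem_filter, hbv]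
              rintro ⟨-, h, -⟩
              exact lt_irrefl _ h
            · intro c hc
              rw [Finset.mem_filter, hbv] at hc
              rw [Finset.mem_filter]
              exact ⟨hc.1, hb1.trans hc.2.1, hc.2.2⟩) φ'' φ' hφ'' hφ'
        refine ⟨s' * s, mul_ne_zero hs1 hs, ?_⟩
        rw [hs1', hs', C_mul, mul_assoc]
      · refine ih ϖ ϖ' h0 h1 h2 h3 ?_ φ φ' hφ hφ'
        have : hfin.toFinset.filter (fun b : K.A => ‖(ϖ : ℂ_[p])‖ < ‖(b : ℂ_[p]) - v‖ ∧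
            ‖(b : ℂ_[p]) - v‖ < ‖(ϖ' : ℂ_[p])‖) = ∅ := by
          rw [Finset.filter_eq_empty_iff]
          intro b hb h
          exact hcase ⟨b, hb, h⟩
        rw [this, Finset.card_empty]
        exact Nat.zero_le _
  exact key _ ϖ₁ ϖ₂ hϖ₁ le_rfl hlt le_rfl le_rfl φ₁ φ₂ hφ₁ hφ₂

end Pool.Agent.Helper60.FF
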