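import Pool.Agent.Helper13.FF.Final
import Pool.Agent.Helper14.BSC.All
import Pool.Agent.Helper11.FF.NRV
import Pool.Agent.Helper13.FF.FINQ
import Pool.Agent.Helper13.FF.L2
import Pool.Agent.Helper13.FF.L3
import Pool.Agent.Helper18.TW.RPL
import Pool.Agent.Helper2.FF3.GDS
import Pool.Agent.Helper2.FFI.KMR
import Pool.Agent.Helper20.FFI.LDJ
import Pool.Agent.Helper22.FF.PIA
import Pool.Agent.Helper22.TW.ONEF
import Pool.Agent.Helper25.FF.CNJ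
import Pool.Agent.Helper26.FF3.KPC
import Pool.Agent.Helper27.FFI.FFS
import Pool.Agent.Helper28.FF.FACM
import Pool.Agent.Helper28.FF3.PRM
import Pool.Agent.Helper3.FF.GDX
import Pool.Agent.Helper30.FF3.BET
import Pool.Agent.Helper30.FF3.KDR
import Pool.Agent.Helper30.FFI.BCS
import Pool.Agent.Helper30.FFI.KU
import Pool.Agent.Helper32.FF.FDV
import Pool.Agent.Helper32.FF.SPL
import Pool.Agent.Helper32.FF.TRA
import Pool.Agent.Helper35.FF.PWR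
import Pool.Agent.Helper37.FF.DIR
import Pool.Agent.Helper37.FF.L2C
import Pool.Agent.Helper37.FF.P1
import Pool.Agent.Helper38.FF.RED
import Pool.Agent.Helper38.FF3.DES
import Pool.Agent.Helper38.FFI.CHE
import Pool.Agent.Helper38.FFI.ORB
import Pool.Agent.Helper41.FF.L4
import Pool.Agent.Helper41.FF.L5
import Pool.Agent.Helper44.FF.DNS
import Pool.Agent.Helper44.FF.OVE
import Pool.Agent.Helper44.FF.RFA
import Pool.Agent.Helper44.FF.SGF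
import Pool.Agent.Helper44.FF3.RBX
import Pool.Agent.Helper45.FF.FROB
import Pool.Agent.Helper46.FF.EVH
import Pool.Agent.Helper46.FF.FND
import Pool.Agent.Helper46.FF.NPW
import Pool.Agent.Helper48.FF3.SHA
import Pool.Agent.Helper48.TW.PL
import Pool.Agent.Helper48.TW.UNQ
import Pool.Agent.Helper50.FF.UNQL
import Pool.Agent.Helper50.FFI.CF
import Pool.Agent.Helper52.FF.R1
import Pool.Agent.Helper53.FF.RDU
import Pool.Agent.Helper53.FFI.CTB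
import Pool.Agent.Helper53.FFI.EQV
import Pool.Agent.Helper55.FF.L5A
import Pool.Agent.Helper55.FF.TDEF
import Pool.Agent.Helper58.FF3.GFX
import Pool.Agent.Helper59.FF.DER
import Pool.Agent.Helper59.FFI.NORM
import Pool.Agent.Helper60.FF.EXI
import Pool.Agent.Helper63.FF.DIC
import Pool.Agent.Helper63.FF.FINF
import Pool.Agent.Helper63.FF.LFX
import Pool.Agent.Helper63.TW.NPW
import Pool.Agent.Helper67.FF.CPT
import Pool.Agent.Helper67.FF.M2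
import Pool.Agent.Helper67.FF.WEI
import Pool.Agent.Helper68.FF3.VAL
import Pool.Agent.Helper7.FF.EDV
import Pool.Agent.Helper7.FF3.TRF
import Pool.Agent.Helper7.FFI.VL
import Pool.Agent.Helper71.FF.VTX
import Pool.Agent.Helper71.FF3.END
import Pool.Agent.Helper74.FF.FCT
import Pool.Agent.Helper74.FF.ORD
import Pool.Agent.Helper74.FF.OVF
import Pool.Agent.Helper75.FF.M1
import Pool.Agent.Helper8.FFI.EFD
import Pool.Agent.Helper8.FFI.PSI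
import Pool.Agent.Helper80.FF.MAIN
import Pool.Agent.Helper85.FF.R1A
import Pool.Agent.Helper9.FF.DSK
import Pool.Agent.Helper9.FF.L3D
import Pool.Agent.Helper9.FF.LAP
import Pool.Agent.Helper9.FF.RESB
import Pool.Agent.Helper9.FF.WRO
import Pool.Agent.Helper91.FF.P1A
import Pool.Agent.Helper91.FF.RAMX
import Pool.Agent.Helper92.FF.CNT
import Pool.Agent.Helper93.FF.ELEM
import Pool.Agent.Helper94.FF3.MDL
import Pool.Agent.Helper95.FF3.MPW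
import Pool.Agent.Helper96.FF.DI
import Pool.Agent.Helper97.FF.P3
import Pool.Agent.Helper99.FF.EDG

/-!
# Assembly of the modules of the theorem on birational sections over function fields (MP_8312c9_nt)
-/

set_option autoImplicit false

namespace Pool.Agent.Helper13.FF

theorem ft_PRM : Pool.Agent.Helper18.FF3.ST_PRM := Pool.Agent.Helper18.FF3.st_PRM
theorem ft_MDL : Pool.Agent.Helper18.FF3.ST_MDL := Pool.Agent.Helper18.FF3.st_MDL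
theorem ff_TRA : Pool.Agent.Helper60.FF.ST_TRA := Pool.Agent.Helper60.FF.st_TRA
theorem ff_EVH : Pool.Agent.Helper60.FF.ST_EVH := Pool.Agent.Helper60.FF.st_EVH
theorem ff_NRV : Pool.Agent.Helper60.FF.ST_NRV := Pool.Agent.Helper60.FF.st_NRV ff_EVH
theorem ff_RFA : Pool.Agent.Helper60.FF.ST_RFA := Pool.Agent.Helper60.FF.st_RFA
theorem ff_LFX : Pool.Agent.Helper60.FF.ST_LFX := Pool.Agent.Helper60.FF.st_LFX ff_RFA
theorem ft_MPW : Pool.Agent.Helper18.FF3.ST_MPW := Pool.Agent.Helper18.FF3.st_MPW ff_TRA ff_NRV ff_LFX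
theorem ff_ORD : Pool.Agent.Helper60.FF.ST_ORD := Pool.Agent.Helper60.FF.st_ORD
theorem ff_FCT : Pool.Agent.Helper60.FF.ST_FCT := Pool.Agent.Helper60.FF.st_FCT ff_ORD
theorem ff_OVF : Pool.Agent.Helper60.FF.ST_OVF := Pool.Agent.Helper60.FF.st_OVF
theorem ft_KDR : Pool.Agent.Helper18.FF3.ST_KDR := Pool.Agent.Helper18.FF3.st_KDR ft_MPW ff_EVH ff_FCT ff_OVF
theorem ft_KPC : Pool.Agent.Helper18.FF3.ST_KPC := Pool.Agent.Helper18.FF3.st_KPC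
theorem ft_GFX : Pool.Agent.Helper18.FF3.ST_GFX := Pool.Agent.Helper18.FF3.st_GFX
theorem ff_WRO : Pool.Agent.Helper60.FF.ST_WRO := Pool.Agent.Helper60.FF.st_WRO
theorem ft_GDS : Pool.Agent.Helper18.FF3.ST_GDS := Pool.Agent.Helper18.FF3.st_GDS ft_KPC ft_GFX ff_WRO
theorem tw_NPW : Pool.Agent.Helper22.TW.ST_NPW := Pool.Agent.Helper22.TW.st_NPW
theorem ft_DES : Pool.Agent.Helper18.FF3.ST_DES := Pool.Agent.Helper18.FF3.st_DES tw_NPW
theorem ft_RBX : Pool.Agent.Helper18.FF3.ST_RBX := Pool.Agent.Helper18.FF3.st_RBX ft_KDR ft_GDS ft_DES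
theorem ft_BET : Pool.Agent.Helper18.FF3.ST_BET := Pool.Agent.Helper18.FF3.st_BET Pool.Agent.Helper14.BSC.all_LIM
theorem ft_VAL : Pool.Agent.Helper18.FF3.ST_VAL := Pool.Agent.Helper18.FF3.st_VAL
theorem ft_SHA : Pool.Agent.Helper18.FF3.ST_SHA := Pool.Agent.Helper18.FF3.st_SHA
theorem ft_END : Pool.Agent.Helper18.FF3.ST_END := Pool.Agent.Helper18.FF3.st_END ff_WRO
theorem ft_TRF : Pool.Agent.Helper18.FF3.ST_TRF := Pool.Agent.Helper18.FF3.st_TRF ft_BET ft_VAL ft_SHA ft_END Pool.Agent.Helper14.BSC.all_TSX Pool.Agent.Helper14.BSC.all_RK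
theorem fi_LDJ : Pool.Agent.Helper22.FF.ST_LDJ := Pool.Agent.Helper22.FF.st_LDJ
theorem fi_NORM : Pool.Agent.Helper22.FF.ST_NORM := Pool.Agent.Helper22.FF.st_NORM fi_LDJ ff_EVH ff_OVF
theorem fi_CF : Pool.Agent.Helper22.FF.ST_CF := Pool.Agent.Helper22.FF.st_CF
theorem fi_FFS : Pool.Agent.Helper22.FF.ST_FFS := Pool.Agent.Helper22.FF.st_FFS
theorem fi_KU : Pool.Agent.Helper22.FF.ST_KU := Pool.Agent.Helper22.FF.st_KU fi_FFS Pool.Agent.Helper14.BSC.all_KUM Pool.Agent.Helper14.BSC.all_ROOT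
theorem fi_ORB : Pool.Agent.Helper22.FF.ST_ORB := Pool.Agent.Helper22.FF.st_ORB
theorem tw_UNQ : Pool.Agent.Helper22.TW.ST_UNQ := Pool.Agent.Helper22.TW.st_UNQ Pool.Agent.Helper14.BSC.all_KUM Pool.Agent.Helper14.BSC.all_BOT Pool.Agent.Helper14.BSC.all_LIM
theorem tw_PL : Pool.Agent.Helper22.TW.ST_PL := Pool.Agent.Helper22.TW.st_PL tw_UNQ Pool.Agent.Helper14.BSC.all_KUM Pool.Agent.Helper14.BSC.all_ROOT Pool.Agent.Helper14.BSC.all_BOT Pool.Agent.Helper14.BSC.all_EFIN Pool.Agent.Helper14.BSC.all_RK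
theorem fi_EQV : Pool.Agent.Helper22.FF.ST_EQV := Pool.Agent.Helper22.FF.st_EQV tw_PL tw_UNQ
theorem fi_EFD : Pool.Agent.Helper22.FF.ST_EFD := Pool.Agent.Helper22.FF.st_EFD
theorem fi_PSI : Pool.Agent.Helper22.FF.ST_PSI := Pool.Agent.Helper22.FF.st_PSI tw_UNQ
theorem fi_CHE : Pool.Agent.Helper22.FF.ST_CHE := Pool.Agent.Helper22.FF.st_CHE fi_ORB fi_EQV fi_EFD fi_PSI Pool.Agent.Helper14.BSC.all_RK tw_PL
theorem fi_BCS : Pool.Agent.Helper22.FF.ST_BCS := Pool.Agent.Helper22.FF.st_BCS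
theorem tw_RPL : Pool.Agent.Helper22.TW.ST_RPL := Pool.Agent.Helper22.TW.st_RPL
theorem fi_VL : Pool.Agent.Helper22.FF.ST_VL := Pool.Agent.Helper22.FF.st_VL fi_PSI tw_RPL
theorem fi_KMR : Pool.Agent.Helper22.FF.ST_KMR := Pool.Agent.Helper22.FF.st_KMR fi_ORB fi_EQV fi_EFD fi_BCS fi_VL Pool.Agent.Helper14.BSC.all_RK Pool.Agent.Helper14.BSC.all_BOT tw_PL
theorem fi_CTB : Pool.Agent.Helper22.FF.ST_CTB := Pool.Agent.Helper22.FF.st_CTB
theorem ft_PI : Pool.Agent.Helper18.FF3.ST_PI := Pool.Agent.Helper22.FF.st_PI Pool.Agent.Helper14.BSC.all_EMB Pool.Agent.Helper14.BSC.all_BOT fi_NORM fi_CF fi_KU fi_CHE fi_KMR fi_CTB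
theorem ff_DER : Pool.Agent.Helper60.FF.ST_DER := Pool.Agent.Helper60.FF.st_DER
theorem ff_FDV : Pool.Agent.Helper60.FF.ST_FDV := Pool.Agent.Helper60.FF.st_FDV ff_RFA
theorem ff_P1A : Pool.Agent.Helper60.FF.ST_P1A := Pool.Agent.Helper60.FF.st_P1A ff_DER ff_FDV ff_EVH
theorem ff_UNQL : Pool.Agent.Helper60.FF.ST_UNQL := Pool.Agent.Helper60.FF.st_UNQL
theorem ff_LAP : Pool.Agent.Helper60.FF.ST_LAP := Pool.Agent.Helper60.FF.st_LAP
theorem ff_CNT : Pool.Agent.Helper60.FF.ST_CNT := Pool.Agent.Helper60.FF.st_CNT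
theorem ff_FINF : Pool.Agent.Helper60.FF.ST_FINF := Pool.Agent.Helper60.FF.st_FINF ff_UNQL ff_LAP ff_CNT
theorem ff_FINQ : Pool.Agent.Helper60.FF.ST_FINQ := Pool.Agent.Helper60.FF.st_FINQ ff_FINF ff_RFA
theorem ff_TDEF : Pool.Agent.Helper60.FF.ST_TDEF := Pool.Agent.Helper60.FF.st_TDEF ff_UNQL
theorem ff_RED : Pool.Agent.Helper60.FF.ST_RED := Pool.Agent.Helper60.FF.st_RED
theorem ff_RAMX : Pool.Agent.Helper60.FF.ST_RAMX := Pool.Agent.Helper60.FF.st_RAMX ff_RFA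
theorem ff_RDU : Pool.Agent.Helper60.FF.ST_RDU := Pool.Agent.Helper60.FF.st_RDU
theorem ff_P1 : Pool.Agent.Helper60.FF.ST_P1 := Pool.Agent.Helper60.FF.st_P1 ff_P1A ff_FINQ ff_TDEF ff_RED ff_LFX ff_FDV ff_RFA ff_RAMX ff_TRA ff_RDU ff_OVF
theorem ff_EXI : Pool.Agent.Helper60.FF.ST_EXI := Pool.Agent.Helper60.FF.st_EXI ff_TRA ff_RFA
theorem ff_ELEM : Pool.Agent.Helper60.FF.ST_ELEM := Pool.Agent.Helper60.FF.st_ELEM
theorem ff_P3 : Pool.Agent.Helper60.FF.ST_P3 := Pool.Agent.Helper60.FF.st_P3 ff_EXI ff_ELEM ff_RAMX ff_RFA ff_RDU ff_EVH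
theorem ff_DIR : Pool.Agent.Helper60.FF.ST_DIR := Pool.Agent.Helper60.FF.st_DIR
theorem ff_FROB : Pool.Agent.Helper60.FF.ST_FROB := Pool.Agent.Helper60.FF.st_FROB
theorem ff_FACM : Pool.Agent.Helper60.FF.ST_FACM := Pool.Agent.Helper60.FF.st_FACM ff_FROB
theorem ff_RESB : Pool.Agent.Helper60.FF.ST_RESB := Pool.Agent.Helper60.FF.st_RESB
theorem ff_L2C : Pool.Agent.Helper60.FF.ST_L2C := Pool.Agent.Helper60.FF.st_L2C ff_FACM ff_RESB
theorem ff_DI : Pool.Agent.Helper60.FF.ST_DI := Pool.Agent.Helper60.FF.st_DI ff_DER ff_RDU ff_RAMX ff_LFX ff_RFA ff_TRA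
theorem ff_DIC : Pool.Agent.Helper60.FF.ST_DIC := Pool.Agent.Helper60.FF.st_DIC ff_DI ff_P1 ff_RDU ff_RFA
theorem ff_L2 : Pool.Agent.Helper60.FF.ST_L2 := Pool.Agent.Helper60.FF.st_L2 ff_P1 ff_P3 ff_DIR ff_L2C ff_DIC ff_LFX ff_RED ff_ORD ff_RFA ff_OVF
theorem ff_NPW : Pool.Agent.Helper60.FF.ST_NPW := Pool.Agent.Helper60.FF.st_NPW
theorem ff_L3D : Pool.Agent.Helper60.FF.ST_L3D := Pool.Agent.Helper60.FF.st_L3D ff_P3 ff_DIC ff_NPW ff_RAMX ff_ORD ff_OVF ff_EVH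
theorem ff_SGF : Pool.Agent.Helper60.FF.ST_SGF := Pool.Agent.Helper60.FF.st_SGF ff_ORD
theorem ff_L3 : Pool.Agent.Helper60.FF.ST_L3 := Pool.Agent.Helper60.FF.st_L3 ff_L3D ff_LFX ff_SGF
theorem ff_EDG : Pool.Agent.Helper60.FF.ST_EDG := Pool.Agent.Helper60.FF.st_EDG ff_L2 ff_L3 ff_DIC ff_SGF
theorem ff_L4 : Pool.Agent.Helper60.FF.ST_L4 := Pool.Agent.Helper60.FF.st_L4 ff_EXI ff_RAMX ff_NRV ff_LFX ff_RFA ff_RDU ff_EVH ff_ORD
theorem ff_CNJ : Pool.Agent.Helper60.FF.ST_CNJ := Pool.Agent.Helper60.FF.st_CNJ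
theorem ff_SPL : Pool.Agent.Helper60.FF.ST_SPL := Pool.Agent.Helper60.FF.st_SPL ff_CNJ ff_FCT ff_ORD ff_EVH
theorem ff_PWR : Pool.Agent.Helper60.FF.ST_PWR := Pool.Agent.Helper60.FF.st_PWR
theorem ff_CPT : Pool.Agent.Helper60.FF.ST_CPT := Pool.Agent.Helper60.FF.st_CPT ff_PWR ff_LFX
theorem ff_L5A : Pool.Agent.Helper60.FF.ST_L5A := Pool.Agent.Helper60.FF.st_L5A ff_L4 ff_SPL ff_CPT ff_EXI ff_RAMX ff_LFX ff_RFA ff_EVH ff_RDU ff_ORD ff_OVF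
theorem ff_L5 : Pool.Agent.Helper60.FF.ST_L5 := Pool.Agent.Helper60.FF.st_L5 ff_L5A ff_RDU
theorem ff_VTX : Pool.Agent.Helper60.FF.ST_VTX := Pool.Agent.Helper60.FF.st_VTX ff_P1 ff_EXI ff_L5 ff_RDU ff_RAMX ff_LFX ff_RFA
theorem ff_EDV : Pool.Agent.Helper60.FF.ST_EDV := Pool.Agent.Helper60.FF.st_EDV ff_L3 ff_DIC
theorem ff_GDX : Pool.Agent.Helper60.FF.ST_GDX := Pool.Agent.Helper60.FF.st_GDX ff_L2 ff_L3 ff_DIC
theorem ff_DNS : Pool.Agent.Helper60.FF.ST_DNS := Pool.Agent.Helper60.FF.st_DNS ff_LFX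
theorem ff_FND : Pool.Agent.Helper60.FF.ST_FND := Pool.Agent.Helper60.FF.st_FND ff_EDG ff_VTX ff_EDV ff_GDX ff_L5 ff_DNS ff_SGF
theorem ff_WEI : Pool.Agent.Helper60.FF.ST_WEI := Pool.Agent.Helper60.FF.st_WEI ff_LFX
theorem ff_DSK : Pool.Agent.Helper60.FF.ST_DSK := Pool.Agent.Helper60.FF.st_DSK ff_L5 ff_WEI ff_NRV ff_TRA ff_LFX ff_EVH ff_ORD
theorem ff_R1A : Pool.Agent.Helper60.FF.ST_R1A := Pool.Agent.Helper60.FF.st_R1A ff_FND ff_DSK ff_L4 ff_DIC ff_DNS ff_RFA ff_RDU ff_ORD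
theorem ff_OVE : Pool.Agent.Helper60.FF.ST_OVE := Pool.Agent.Helper60.FF.st_OVE
theorem ff_R1 : Pool.Agent.Helper60.FF.ST_R1 := Pool.Agent.Helper60.FF.st_R1 ff_R1A ff_FCT ff_PWR ff_OVE ff_EVH ff_OVF ff_ORD
theorem ff_M1 : Pool.Agent.Helper60.FF.ST_M1 := Pool.Agent.Helper60.FF.st_M1 ff_NRV ff_TRA ff_LFX ff_OVE ff_EVH
theorem ff_M2 : Pool.Agent.Helper60.FF.ST_M2 := Pool.Agent.Helper60.FF.st_M2 ff_WRO
theorem ff_MAIN : Pool.Agent.Helper60.FF.ST_MAIN := Pool.Agent.Helper60.FF.st_MAIN ff_R1 ff_M1 ff_M2 ff_EVH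
theorem tw_ONEF : Pool.Agent.Helper22.TW.ST_ONEF := Pool.Agent.Helper22.TW.st_ONEF Pool.Agent.Helper14.BSC.all_ZER Pool.Agent.Helper14.BSC.all_DEP Pool.Agent.Helper14.BSC.all_LZG Pool.Agent.Helper14.BSC.all_EMB Pool.Agent.Helper14.BSC.all_TSX Pool.Agent.Helper14.BSC.all_RK Pool.Agent.Helper14.BSC.all_ONE4 Pool.Agent.Helper14.BSC.all_MOB1

theorem all_RTF : Pool.Agent.Helper13.FF.ST_RTF := by
  intro k Ω _ _ _ _ _ D hk hx f hf
  exact Pool.Agent.Helper18.FF3.rtf_of ff_MAIN ft_PRM ft_PI ft_MDL ft_RBX ft_TRF k Ω hk hx D f hf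

theorem all_FINAL : ST_FINAL :=
  final all_RTF tw_ONEF Pool.Agent.Helper14.BSC.all_IFD Pool.Agent.Helper14.BSC.all_UNI
    Pool.Agent.Helper14.BSC.all_ALG

end Pool.Agent.Helper13.FF
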