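import Pool.Agent.Helper22.TW.Top

/-!
# The last step: from the finiteness of the values to the birational section conjecture
-/

set_option autoImplicit false

namespace Pool.Agent.Helper13.FF

open Pool.Agent.Helper14.BSC Pool.Agent.Helper14.BSC.Gen Pool.Agent.Helper22.TW Polynomial

/-- RTF: over a finitely generated field `k` of positive transcendence degree, the finite values of every
nonconstant function of the fixed field at all `p`-adic places are roots of one fixed polynomial. -/
def ST_RTF : Prop :=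
  ∀ (k Ω : Type) [Field k] [Field Ω] [Algebra k Ω] [CharZero k] [IsAlgClosed Ω] (D : Sec k Ω),
    (⊤ : IntermediateField ℚ k).FG → (∃ x : k, Transcendental ℚ x) →
    ∀ f : LL D, (∀ c : k, f ≠ algebraMap k (LL D) c) → ∃ G : k[X], G ≠ 0 ∧ RootFin D f G

section

variable {k K kb Ω : Type} [Field k] [Field K] [Field kb] [Field Ω] [Algebra k K] [Algebra k kb]
  [Algebra kb Ω] [Algebra k Ω] [Algebra K Ω] [IsScalarTower k K Ω] [IsScalarTower k kb Ω]
  [Algebra.IsAlgebraic K Ω] [IsAlgClosure k kb]

theorem final_gen (hRTF : ST_RTF) (hONEF : ST_ONEF) (hIFD : ST_IFD) (hUNI : ST_UNI) (hALG : ST_ALG)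
    [CharZero k] [IsAlgClosed Ω] (hk : (⊤ : IntermediateField ℚ k).FG)
    (hx : ∃ x : k, Transcendental ℚ x)
    (htr : ∃ t : K, Transcendental k t ∧ Algebra.IsAlgebraic (IntermediateField.adjoin k {t}) K)
    (s : (kb ≃ₐ[k] kb) →* (Ω ≃ₐ[K] Ω)) (hs : IsSection s) : IsGeometric s := by
  have htr' := htr
  obtain ⟨t, ht, _⟩ := htr'
  have hmem : algebraMap K Ω t ∈ LL (topD s hs) :=
    (top_mem s hs _).2 (fun g => (s g).commutes _)
  have hne : ∀ c : k, (⟨algebraMap K Ω t, hmem⟩ : LL (topD s hs)) ≠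
      algebraMap k (LL (topD s hs)) c := by
    intro c hc
    have h1 : algebraMap K Ω t = algebraMap k Ω c := congrArg Subtype.val hc
    rw [IsScalarTower.algebraMap_apply k K Ω] at h1
    have h2 : t = algebraMap k K c := (algebraMap K Ω).injective h1
    apply ht
    rw [h2]
    exact isAlgebraic_algebraMap c
  obtain ⟨G, hG, hR⟩ := hRTF k Ω (topD s hs) hk hx ⟨_, hmem⟩ hne
  exact geo_of_rootfin hONEF hIFD hUNI hALG hk htr s hs _ hne G hG hR

end

/-- the frozen statement S17615 with the extra hypothesis that `k` contains a transcendental element -/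
def ST_FINAL : Prop :=
  ∀ (k : Type) [Field k] [CharZero k], (⊤ : IntermediateField ℚ k).FG →
  (∃ x : k, Transcendental ℚ x) →
  ∀ (K : Type) [Field K] [Algebra k K], (⊤ : IntermediateField k K).FG →
  (∃ t : K, Transcendental k t ∧ Algebra.IsAlgebraic (IntermediateField.adjoin k {t}) K) →
  (∀ x : K, IsAlgebraic k x → x ∈ (algebraMap k K).range) →
  ∀ s : (algebraicClosure k (AlgebraicClosure K) ≃ₐ[k] algebraicClosure k (AlgebraicClosure K)) →*
      (AlgebraicClosure K ≃ₐ[K] AlgebraicClosure K),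
  Continuous s →
  (∀ (g : algebraicClosure k (AlgebraicClosure K) ≃ₐ[k] algebraicClosure k (AlgebraicClosure K))
     (x : algebraicClosure k (AlgebraicClosure K)),
     s g (x : AlgebraicClosure K) = ((g x : algebraicClosure k (AlgebraicClosure K)) : AlgebraicClosure K)) →
  ∃! O : ValuationSubring K,
    O ≠ ⊤ ∧ (∀ c : k, algebraMap k K c ∈ O) ∧
    (∀ a ∈ O, ∃ c : k, O.valuation (a - algebraMap k K c) < 1) ∧
    ∃ W : ValuationSubring (AlgebraicClosure K),
      W.comap (algebraMap K (AlgebraicClosure K)) = O ∧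
      ∀ (g : algebraicClosure k (AlgebraicClosure K) ≃ₐ[k] algebraicClosure k (AlgebraicClosure K))
        (x : AlgebraicClosure K), (s g x ∈ W ↔ x ∈ W)

theorem final (hRTF : ST_RTF) (hONEF : ST_ONEF) (hIFD : ST_IFD) (hUNI : ST_UNI) (hALG : ST_ALG) :
    ST_FINAL := by
  intro k _ _ hk hx K _ _ _ htr _ s hs1 hs2
  have := final_gen (kb := algebraicClosure k (AlgebraicClosure K)) (Ω := AlgebraicClosure K)
    hRTF hONEF hIFD hUNI hALG hk hx htr s ⟨hs1, hs2⟩
  exact this

end Pool.Agent.Helper13.FF
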